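import Pool.Agent.H67.HM.Stm2

set_option autoImplicit false

open Polynomial MeasureTheory Filter Topology

namespace HM

namespace STAaux

variable {G : Type} [AddCommGroup G]

lemma coeff_st (x : AddMonoidAlgebra ℂ G) (g : G) :
    (st x).coeff g = (starRingEnd ℂ) (x.coeff (-g)) := by
  classical
  unfold st
  rw [AddMonoidAlgebra.coeff_sum, Finsupp.finsetSum_apply]
  simp only [AddMonoidAlgebra.coeff_single, Finsupp.single_apply]
  rw [Finset.sum_eq_single (-g)]
  · simp
  · intro b _ hb
    rw [if_neg]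
    intro h
    exact hb (by rw [← h]; simp)
  · intro h
    have : x.coeff (-g) = 0 := Finsupp.notMem_support_iff.1 h
    simp [this]

lemma ext' {x y : AddMonoidAlgebra ℂ G} (h : ∀ g, x.coeff g = y.coeff g) : x = y :=
  AddMonoidAlgebra.ext (Finsupp.ext h)

lemma st_add (x y : AddMonoidAlgebra ℂ G) : st (x + y) = st x + st y := by
  apply ext'
  intro g
  simp only [coeff_st, AddMonoidAlgebra.coeff_add, Finsupp.add_apply, map_add]

lemma st_zero : st (0 : AddMonoidAlgebra ℂ G) = 0 := by
  apply ext'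
  intro g
  simp [coeff_st]

lemma st_smul (c : ℂ) (x : AddMonoidAlgebra ℂ G) : st (c • x) = (starRingEnd ℂ) c • st x := by
  apply ext'
  intro g
  simp [coeff_st]

lemma st_st (x : AddMonoidAlgebra ℂ G) : st (st x) = x := by
  apply ext'
  intro g
  simp [coeff_st]

lemma st_single (g : G) (c : ℂ) : st (AddMonoidAlgebra.single g c) =
    AddMonoidAlgebra.single (-g) ((starRingEnd ℂ) c) := by
  classical
  apply ext'
  intro h
  rw [coeff_st]
  simp only [AddMonoidAlgebra.coeff_single, Finsupp.single_apply]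
  by_cases hh : g = -h
  · simp [hh]
  · rw [if_neg hh, if_neg (fun h' => hh (by rw [← h']; simp))]
    simp

lemma st_mul (x y : AddMonoidAlgebra ℂ G) : st (x * y) = st x * st y := by
  induction x using AddMonoidAlgebra.induction_linear with
  | zero => simp [st_zero]
  | add f g hf hg => rw [add_mul, st_add, hf, hg, st_add, add_mul]
  | single a b =>
    induction y using AddMonoidAlgebra.induction_linear with
    | zero => simp [st_zero]
    | add f g hf hg => rw [mul_add, st_add, hf, hg, st_add, mul_add]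
    | single c d =>
      rw [AddMonoidAlgebra.single_mul_single, st_single, st_single, st_single,
        AddMonoidAlgebra.single_mul_single, neg_add, map_mul]

lemma st_one : st (1 : AddMonoidAlgebra ℂ G) = 1 := by
  rw [AddMonoidAlgebra.one_def, st_single]
  simp

lemma st_pow (x : AddMonoidAlgebra ℂ G) (n : ℕ) : st (x ^ n) = st x ^ n := by
  induction n with
  | zero => simp [st_one]
  | succ n ih => rw [pow_succ, st_mul, ih, pow_succ]

lemma supp_st (x : AddMonoidAlgebra ℂ G) (g : G) :
    g ∈ (st x).coeff.support ↔ -g ∈ x.coeff.support := by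
  rw [Finsupp.mem_support_iff, Finsupp.mem_support_iff, coeff_st]
  simp

lemma st_nrm (r : ℝ) (x : AddMonoidAlgebra ℂ G) : Nn r (st x) = Nn r x := by
  unfold Nn
  congr 1
  refine Finset.sum_bij (fun g _ => -g) ?_ ?_ ?_ ?_
  · intro g hg
    exact (supp_st x g).1 hg
  · intro a _ b _ h
    exact neg_injective h
  · intro b hb
    refine ⟨-b, ?_, by simp⟩
    rw [supp_st]
    simpa using hb
  · intro a _
    rw [coeff_st]
    simp

lemma st_sb {H : Type} [AddCommGroup H] (h : G →+ H) (x : AddMonoidAlgebra ℂ G) :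
    st (sb h x) = sb h (st x) := by
  induction x using AddMonoidAlgebra.induction_linear with
  | zero => simp [st_zero]
  | add f g hf hg => rw [map_add, st_add, hf, hg, st_add, map_add]
  | single a b =>
    rw [st_single]
    unfold sb
    rw [AddMonoidAlgebra.mapDomainRingHom_apply, AddMonoidAlgebra.mapDomainRingHom_apply,
      AddMonoidAlgebra.mapDomain_single, AddMonoidAlgebra.mapDomain_single, st_single]
    simp

lemma Nn_one (z : AddMonoidAlgebra ℂ G) : Nn 1 z = ∑ k ∈ z.coeff.support, ‖z.coeff k‖ := by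
  unfold Nn
  simp

lemma coeff_zero_mul_st (x : AddMonoidAlgebra ℂ G) :
    (x * st x).coeff 0 = ∑ k ∈ x.coeff.support, x.coeff k * (starRingEnd ℂ) (x.coeff k) := by
  classical
  rw [AddMonoidAlgebra.coeff_mul, Finsupp.sum]
  refine Finset.sum_congr rfl ?_
  intro k _
  rw [Finsupp.sum, Finset.sum_eq_single (-k)]
  · rw [coeff_st]
    simp
  · intro b _ hb
    rw [if_neg]
    intro h
    exact hb (by rw [eq_neg_iff_add_eq_zero, add_comm]; exact h)
  · intro h
    have : (st x).coeff (-k) = 0 := Finsupp.notMem_support_iff.1 h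
    simp [this]

lemma two (x : AddMonoidAlgebra ℂ G) : Nn 2 x ^ 2 ≤ Nn 1 (x * st x) := by
  classical
  have h1 : Nn 2 x ^ 2 = ∑ k ∈ x.coeff.support, ‖x.coeff k‖ ^ 2 := by
    unfold Nn
    have h0 : 0 ≤ ∑ k ∈ x.coeff.support, ‖x.coeff k‖ ^ (2 : ℝ) :=
      Finset.sum_nonneg fun k _ => by positivity
    rw [← Real.sqrt_eq_rpow, Real.sq_sqrt h0]
    refine Finset.sum_congr rfl ?_
    intro k _
    exact_mod_cast Real.rpow_natCast ‖x.coeff k‖ 2
  have h2 : ‖(x * st x).coeff 0‖ = ∑ k ∈ x.coeff.support, ‖x.coeff k‖ ^ 2 := by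
    rw [coeff_zero_mul_st]
    have : ∀ k ∈ x.coeff.support, x.coeff k * (starRingEnd ℂ) (x.coeff k) =
        ((‖x.coeff k‖ ^ 2 : ℝ) : ℂ) := by
      intro k _
      rw [Complex.mul_conj, Complex.normSq_eq_norm_sq]
    rw [Finset.sum_congr rfl this, ← Complex.ofReal_sum, Complex.norm_real, Real.norm_eq_abs,
      abs_of_nonneg]
    exact Finset.sum_nonneg fun k _ => by positivity
  rw [h1, ← h2, Nn_one]
  by_cases h : (0 : G) ∈ (x * st x).coeff.support
  · exact Finset.single_le_sum (f := fun k => ‖(x * st x).coeff k‖) (fun _ _ => norm_nonneg _) h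
  · rw [Finsupp.notMem_support_iff.1 h, norm_zero]
    exact Finset.sum_nonneg fun _ _ => norm_nonneg _

lemma eq_sum (x : AddMonoidAlgebra ℂ G) :
    x = ∑ k ∈ x.coeff.support, AddMonoidAlgebra.single k (x.coeff k) := by
  have := AddMonoidAlgebra.sum_coeff_single x
  rw [Finsupp.sum] at this
  exact this.symm

lemma sup (x : AddMonoidAlgebra ℂ G) (s : ℝ) (hs : 0 ≤ s) (h : Nn 1 (x * st x) ≤ s ^ 2) :
    Su x s := by
  intro χ h1 h2
  have hbd : ∀ z : AddMonoidAlgebra ℂ G, ‖χ z‖ ≤ Nn 1 z := by
    intro z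
    rw [Nn_one]
    conv_lhs => rw [eq_sum z, map_sum]
    refine (norm_sum_le _ _).trans (le_of_eq ?_)
    refine Finset.sum_congr rfl ?_
    intro k _
    rw [h1, norm_mul, h2, mul_one]
  have hinv : ∀ k : G, χ (AddMonoidAlgebra.single (-k) 1) =
      (starRingEnd ℂ) (χ (AddMonoidAlgebra.single k 1)) := by
    intro k
    have e1 : χ (AddMonoidAlgebra.single k 1) * χ (AddMonoidAlgebra.single (-k) 1) = 1 := by
      rw [← map_mul, AddMonoidAlgebra.single_mul_single, add_neg_cancel, mul_one,
        ← AddMonoidAlgebra.one_def, map_one]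
    have e2 : χ (AddMonoidAlgebra.single k 1) * (starRingEnd ℂ) (χ (AddMonoidAlgebra.single k 1)) = 1 := by
      rw [Complex.mul_conj, Complex.normSq_eq_norm_sq, h2]
      simp
    have e3 : χ (AddMonoidAlgebra.single k 1) ≠ 0 := by
      intro h0
      rw [h0, zero_mul] at e1
      exact zero_ne_one e1
    exact mul_left_cancel₀ e3 (e1.trans e2.symm)
  have hst : χ (st x) = (starRingEnd ℂ) (χ x) := by
    unfold st
    conv_rhs => rw [eq_sum x, map_sum, map_sum]
    rw [map_sum]
    refine Finset.sum_congr rfl ?_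
    intro k _
    rw [h1, hinv, h1 k (x.coeff k), map_mul]
  have h3 : ‖χ x‖ ^ 2 ≤ s ^ 2 := by
    have h4 : ‖χ (x * st x)‖ = ‖χ x‖ ^ 2 := by
      rw [map_mul, hst, norm_mul, RCLike.norm_conj, sq]
    rw [← h4]
    exact (hbd _).trans h
  exact (sq_le_sq₀ (norm_nonneg _) hs).1 h3

lemma evl (b : ℂ[X]) (s : ℝ) (h : Su (tl b) s) (z : ℂ) (hz : ‖z‖ = 1) : ‖b.eval z‖ ≤ s := by
  have hz0 : z ≠ 0 := by
    intro h0
    rw [h0, norm_zero] at hz
    exact zero_ne_one hz
  set F : Multiplicative ℤ →* ℂ := (Units.coeHom ℂ).comp (zpowersHom ℂˣ (Units.mk0 z hz0)) with hF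
  set χ : AddMonoidAlgebra ℂ ℤ →ₐ[ℂ] ℂ := AddMonoidAlgebra.lift ℂ ℂ ℤ F with hχ
  have hs : ∀ (g : ℤ) (c : ℂ), χ (AddMonoidAlgebra.single g c) = c * z ^ g := by
    intro g c
    rw [hχ, AddMonoidAlgebra.lift_single, hF]
    simp
  have h1 := h (χ : AddMonoidAlgebra ℂ ℤ →+* ℂ) (by
    intro g c
    simp only [RingHom.coe_coe]
    rw [hs, hs, one_mul]) (by
    intro g
    simp only [RingHom.coe_coe]
    rw [hs, one_mul, norm_zpow, hz, one_zpow])
  have h2 : (χ : AddMonoidAlgebra ℂ ℤ →+* ℂ).comp tl = Polynomial.evalRingHom z := by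
    apply Polynomial.ringHom_ext
    · intro a
      simp only [RingHom.comp_apply, RingHom.coe_coe, tl, Polynomial.toLaurent_C]
      change χ (AddMonoidAlgebra.single (0 : ℤ) a) = _
      rw [hs]
      simp
    · simp only [RingHom.comp_apply, RingHom.coe_coe, tl, Polynomial.toLaurent_X]
      change χ (AddMonoidAlgebra.single (1 : ℤ) 1) = _
      rw [hs]
      simp
  have h3 : (χ : AddMonoidAlgebra ℂ ℤ →+* ℂ) (tl b) = b.eval z := by
    have := congrArg (fun f => f b) h2
    simpa using this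
  rw [← h3]
  exact h1

end STAaux

theorem STA_proved : S_STA where
  coeff := fun x g => STAaux.coeff_st x g
  mul := fun x y => STAaux.st_mul x y
  add := fun x y => STAaux.st_add x y
  one := STAaux.st_one
  pow := fun x n => STAaux.st_pow x n
  smul := fun c x => STAaux.st_smul c x
  st_st := fun x => STAaux.st_st x
  nrm := fun r x => STAaux.st_nrm r x
  sb := fun h x => STAaux.st_sb h x
  two := fun x => STAaux.two x
  sup := fun x s hs h => STAaux.sup x s hs h
  evl := fun b s h z hz => STAaux.evl b s h z hz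

end HM
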